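import Pool.Agent.MWGQ.Stmts

/-!
# Squad MWGQ, row CLS (MP_23468a_al): one letter words with one simple letter, period `n`
-/

set_option autoImplicit false

namespace Pool.Agent.MWGQ.H58

open Pool.Agent.Helper14_MV Pool.Agent.Helper2_MV
open Pool.Agent.MWK (pre)
open Pool.Agent.MWF (gaml)
open Pool.Agent.MWGN (Nm WC WT Tau Ns nl sg nn N1 N2 K0 Kb Kc T2 gh)
open Pool.Agent.MWGQ

/-- the word `0^a 1 0^b` -/
def W (a b : ℕ) : List ℕ := Z a ++ 1 :: Z b

theorem pwZ (k : ℕ) : pw k [0] = Z k := by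
  unfold pw Z
  induction k with
  | zero => rfl
  | succ k ih => rw [List.replicate_succ, List.flatten_cons, ih, List.replicate_succ]; rfl

theorem W_ext (i a b j : ℕ) : Z i ++ W a b ++ Z j = W (i + a) (b + j) := by
  unfold W Z
  rw [List.replicate_add i a, List.replicate_add b j]
  simp only [List.append_assoc, List.cons_append]

theorem ext {β : FIC} {a b a' b' : ℕ} (h : RR β (W a b) (W a' b')) (i j : ℕ) :
    RR β (W (i + a) (b + j)) (W (i + a') (b' + j)) := by
  have h1 := ((RR.refl (β := β) (Z i)).append h).append (RR.refl (β := β) (Z j))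
  rwa [W_ext, W_ext] at h1

theorem nf1 (hP : PwxStmt) {n : ℕ} {β : FIC} (hG : Gn n β) (a a' b : ℕ) (ha : 2 ≤ a)
    (ha' : 2 ≤ a') (h : a ≡ a' [MOD n]) : RR β (W a b) (W a' b) := by
  have h1 := (hP n β hG).1 [0] a a' ha ha' h
  rw [pwZ, pwZ] at h1
  exact h1.append (RR.refl (1 :: Z b))

theorem nf2 (hP : PwxStmt) {n : ℕ} {β : FIC} (hG : Gn n β) (a b b' : ℕ) (ha : 1 ≤ a)
    (hb : 1 ≤ b) (hb' : 1 ≤ b') (h : b ≡ b' [MOD n]) : RR β (W a b) (W a b') := by
  have h1 := (hP n β hG).2.1 [0] [1] b b' hb hb' h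
  rw [pwZ, pwZ] at h1
  have h2 : RR β (W 1 b) (W 1 b') := h1
  have h3 := ext h2 (a - 1) 0
  have e : a - 1 + 1 = a := by omega
  rwa [e] at h3

theorem cntW (a b : ℕ) : (W a b).flatMap (fun d => if d = 0 then [0] else []) = Z (a + b) := by
  have h : ∀ k : ℕ, (Z k).flatMap (fun d => if d = 0 then [0] else []) = Z k := by
    intro k
    unfold Z
    induction k with
    | zero => rfl
    | succ k ih => rw [List.replicate_succ, List.flatMap_cons, ih]; rfl
  unfold W
  rw [List.flatMap_append, List.flatMap_cons, h, h]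
  unfold Z
  rw [List.replicate_add]
  rfl

/-- the total number of letters `0` -/
theorem tot {β : FIC} {a b a' b' : ℕ} (h : RR β (W a b) (W a' b')) :
    RR β (Z (a + b)) (Z (a' + b')) := by
  have h1 := RR.sub (fun d => if d = 0 then [0] else []) h
  rwa [cntW, cntW] at h1

/-- the letters `0` in front and behind against the word with one more in front -/
theorem key1 (hP : PwxStmt) {n : ℕ} {β : FIC} (hG : Gn n β) (b a' b' : ℕ) (hb : 1 ≤ b)
    (ha' : 2 ≤ a') (hb' : 1 ≤ b') : ¬ RR β (W 1 b) (W a' b') := by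
  intro h
  have hn := hG.pos
  obtain ⟨m, rfl⟩ : ∃ m, n = m + 1 := ⟨n - 1, by omega⟩
  -- the tail becomes one letter
  have h1 := ext h 0 (m * b + 1)
  simp only [Nat.zero_add] at h1
  have h2 : RR β (W 1 1) (W 1 (b + (m * b + 1))) := by
    apply nf2 hP hG 1 1 _ le_rfl le_rfl (by omega)
    have e : b + (m * b + 1) = (m + 1) * b + 1 := by ring
    rw [e]
    simp [Nat.ModEq, Nat.mul_add_mod]
  have h3 : RR β (W 1 1) (W a' (b' + (m * b + 1))) := β.trans h2 h1
  obtain ⟨l, hl⟩ : ∃ l, b' + (m * b + 1) = l + 1 := ⟨b' + m * b, by omega⟩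
  rw [hl] at h3
  obtain ⟨s, rfl⟩ : ∃ s, a' = s + 1 + 1 := ⟨a' - 2, by omega⟩
  have it : ∀ j : ℕ, RR β (W 1 1) (W (j * (s + 1) + 1) (j * l + 1)) := by
    intro j
    induction j with
    | zero => simp only [Nat.zero_mul, Nat.zero_add]; exact RR.refl _
    | succ j ih =>
      have h4 := ext h3 (j * (s + 1)) (j * l)
      have e1 : 1 + j * l = j * l + 1 := by ring
      have e2 : j * (s + 1) + (s + 1 + 1) = (j + 1) * (s + 1) + 1 := by ring
      have e3 : l + 1 + j * l = (j + 1) * l + 1 := by ring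
      rw [e1, e2, e3] at h4
      exact β.trans ih h4
  have h5 := it (m + 1)
  have h6 : RR β (W ((m + 1) * (s + 1) + 1) ((m + 1) * l + 1)) (W (m + 1 + 1) (m + 1 + 1)) := by
    refine β.trans (nf1 hP hG _ (m + 1 + 1) _ ?_ (by omega) ?_) (nf2 hP hG _ _ (m + 1 + 1) (by omega) (by omega) (by omega) ?_)
    · have : 1 ≤ (m + 1) * (s + 1) := Nat.mul_pos (by omega) (by omega)
      omega
    · simp [Nat.ModEq, Nat.mul_add_mod]
    · simp [Nat.ModEq, Nat.mul_add_mod]
  exact hG.nb (β.trans h5 h6)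

/-- no letters behind against letters behind -/
theorem key2 (hP : PwxStmt) {n : ℕ} {β : FIC} (hG : Gn n β) (hE : ¬ E0 n β) (a a' b : ℕ)
    (ha : 2 ≤ a) (ha' : 2 ≤ a') (hb : 1 ≤ b) : ¬ RR β (W a 0) (W a' b) := by
  intro h
  have hn := hG.pos
  have hmod := hG.en _ _ (tot h)
  obtain ⟨m, rfl⟩ : ∃ m, n = m + 1 := ⟨n - 1, by omega⟩
  have h1 := ext h (m * a + 2) 0
  simp only [Nat.add_zero] at h1 hmod
  have h2 : RR β (W 2 0) (W (m * a + 2 + a) 0) := by
    apply nf1 hP hG _ _ _ le_rfl (by omega)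
    have e : m * a + 2 + a = (m + 1) * a + 2 := by ring
    rw [e]
    simp [Nat.ModEq, Nat.mul_add_mod]
  have h3 : RR β (W (m * a + 2 + a') b) (W (2 + m * b) b) := by
    apply nf1 hP hG _ _ _ (by omega) (by omega)
    have h4 : m * a ≡ m * (a' + b) [MOD m + 1] := Nat.ModEq.mul_left m hmod
    have h5 : m * a + 2 + a' ≡ m * (a' + b) + 2 + a' [MOD m + 1] :=
      (h4.add_right 2).add_right a'
    refine h5.trans ?_
    have e : m * (a' + b) + 2 + a' = (m + 1) * a' + (2 + m * b) := by ring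
    rw [e]
    simp [Nat.ModEq, Nat.mul_add_mod]
  have h4 : RR β (W 2 0) (W (2 + m * b) b) := β.trans (β.trans h2 h1) h3
  have it : ∀ j : ℕ, RR β (W 2 0) (W (2 + j * (m * b)) (j * b)) := by
    intro j
    induction j with
    | zero => simp only [Nat.zero_mul, Nat.add_zero]; exact RR.refl _
    | succ j ih =>
      have h5 := ext h4 (j * (m * b)) (j * b)
      have e1 : j * (m * b) + 2 = 2 + j * (m * b) := by ring
      have e2 : 0 + j * b = j * b := by ring
      have e3 : j * (m * b) + (2 + m * b) = 2 + (j + 1) * (m * b) := by ring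
      have e4 : b + j * b = (j + 1) * b := by ring
      rw [e1, e2, e3, e4] at h5
      exact β.trans ih h5
  have h5 := it (m + 1)
  have h6 : RR β (W (2 + (m + 1) * (m * b)) ((m + 1) * b)) (W 2 (m + 1)) := by
    have hpos : 1 ≤ (m + 1) * b := Nat.mul_pos (by omega) hb
    refine β.trans (nf1 hP hG _ 2 _ (by omega) le_rfl ?_)
      (nf2 hP hG _ _ (m + 1) (by omega) hpos (by omega) ?_)
    · simp [Nat.ModEq]
    · simp [Nat.ModEq]
  apply hE
  exact β.trans h5 h6

/-- **CLS** -/
theorem cls (hP : PwxStmt) : ClsStmt := by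
  intro n β hG hE a b a' b' h
  have hW : RR β (W a b) (W a' b') := h
  have hn := hG.pos
  have ht := tot hW
  by_cases hs : a + b ≤ 1 ∨ a' + b' ≤ 1
  · have heq : a + b = a' + b' := by
      rcases hs with hs | hs
      · exact (hG.e1 _ _ ht hs).symm
      · exact hG.e1 _ _ ht.symm hs
    have hle : a + b ≤ 1 := by omega
    -- no commutation
    have hnc : ¬ RR β (W 1 0) (W 0 1) := by
      intro hc
      have com : ∀ k : ℕ, RR β (W k 0) (W 0 k) := by
        intro k
        induction k with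
        | zero => exact RR.refl _
        | succ k ih =>
          -- `0 0^k 1 ~ 0 1 0^k ~ 1 0 0^k`
          have h1 := ext ih 1 0
          have h2 := ext hc 0 k
          have e1 : 1 + k = k + 1 := by ring
          simp only [Nat.add_zero, Nat.zero_add] at h1 h2
          rw [e1] at h1 h2
          exact β.trans h1 h2
      apply hG.nb
      have h1 : RR β (W 1 1) (W 2 0) := (ext hc 1 0).symm
      have h2 : RR β (W 2 0) (W (n + 1 + (n + 1)) 0) := by
        apply nf1 hP hG _ _ _ le_rfl (by omega)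
        have e : n + 1 + (n + 1) = n * 2 + 2 := by ring
        rw [e]
        simp [Nat.ModEq, Nat.mul_add_mod]
      have h3 := ext (com (n + 1)) (n + 1) 0
      simp only [Nat.add_zero] at h3
      exact β.trans (β.trans h1 h2) h3
    by_cases h0 : a + b = 0
    · omega
    have ca : (a = 0 ∧ b = 1) ∨ (a = 1 ∧ b = 0) := by omega
    have ca' : (a' = 0 ∧ b' = 1) ∨ (a' = 1 ∧ b' = 0) := by omega
    rcases ca with ⟨rfl, rfl⟩ | ⟨rfl, rfl⟩ <;> rcases ca' with ⟨rfl, rfl⟩ | ⟨rfl, rfl⟩
    · omega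
    · exact absurd (RR.symm hW) hnc
    · exact absurd hW hnc
    · omega
  · have h1 : 2 ≤ a + b := by omega
    have h2 : 2 ≤ a' + b' := by omega
    -- one case for each ordered pair of types
    have n13 : ∀ b a' b' : ℕ, 1 ≤ b → 2 ≤ a' → 1 ≤ b' → ¬ RR β (W 1 b) (W a' b') :=
      fun b a' b' => key1 hP hG b a' b'
    have n23 : ∀ a a' b : ℕ, 2 ≤ a → 2 ≤ a' → 1 ≤ b → ¬ RR β (W a 0) (W a' b) :=
      fun a a' b => key2 hP hG hE a a' b
    have fr : ∀ {a b a' b' : ℕ}, RR β (W a b) (W a' b') → RR β (W (a + 1) b) (W (a' + 1) b') := by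
      intro a b a' b' hh
      have h3 := ext hh 1 0
      simp only [Nat.add_zero] at h3
      rw [Nat.add_comm 1 a, Nat.add_comm 1 a'] at h3
      exact h3
    have n12 : ∀ b a' : ℕ, 1 ≤ b → 2 ≤ a' → ¬ RR β (W 1 b) (W a' 0) := by
      intro b a' hb ha' hh
      exact n23 (a' + 1) 2 b (by omega) le_rfl hb (RR.symm (fr hh))
    have n01 : ∀ b b' : ℕ, 2 ≤ b → 1 ≤ b' → ¬ RR β (W 0 b) (W 1 b') := by
      intro b b' hb hb' hh
      exact n13 b 2 b' (by omega) le_rfl hb' (fr hh)
    have n03 : ∀ b a' b' : ℕ, 2 ≤ b → 2 ≤ a' → 1 ≤ b' → ¬ RR β (W 0 b) (W a' b') := by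
      intro b a' b' hb ha' hb' hh
      exact n13 b (a' + 1) b' (by omega) (by omega) hb' (fr hh)
    have n02 : ∀ b a' : ℕ, 2 ≤ b → 2 ≤ a' → ¬ RR β (W 0 b) (W a' 0) := by
      intro b a' hb ha' hh
      exact n12 b (a' + 1) (by omega) (by omega) (fr hh)
    have main : ∀ a b a' b' : ℕ, 2 ≤ a + b → 2 ≤ a' + b' → RR β (W a b) (W a' b') →
        (a = 0 → a' = 0) ∧ (a = 1 → a' = 0 ∨ a' = 1) ∧ (b = 0 → b' ≠ 0 → a' ≤ 1) := by
      intro a b a' b' h1 h2 hh
      refine ⟨?_, ?_, ?_⟩
      · rintro rfl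
        by_contra hne
        by_cases h3 : a' = 1
        · subst h3; exact n01 b b' (by omega) (by omega) hh
        · by_cases h4 : b' = 0
          · subst h4; exact n02 b a' (by omega) (by omega) hh
          · exact n03 b a' b' (by omega) (by omega) (by omega) hh
      · rintro rfl
        by_contra hne
        by_cases h4 : b' = 0
        · subst h4; exact n12 b a' (by omega) (by omega) hh
        · exact n13 b a' b' (by omega) (by omega) (by omega) hh
      · rintro rfl hb'
        by_contra hne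
        exact n23 a a' b' (by omega) (by omega) (by omega) hh
    obtain ⟨m1, m2, m3⟩ := main a b a' b' h1 h2 hW
    obtain ⟨k1, k2, k3⟩ := main a' b' a b h2 h1 hW.symm
    omega

end Pool.Agent.MWGQ.H58
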